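import Mathlib

namespace Pool.Agent.Results.MP_cc2bbb_co.LimitAtMost

open SimpleGraph

section walks
variable {V : Type} {G : SimpleGraph V}

theorem exists_walk_of_cycle [DecidableEq V] {u v a : V} (huv : u ≠ v)
    (c : (G ⊔ edge u v).Walk a a) (hc : c.IsCycle) (he : s(u, v) ∈ c.edges) :
    ∃ p : G.Walk u v, p.length + 1 ≤ c.length := by
  have hu : u ∈ c.support := c.fst_mem_support_of_mem_edges he
  have hc' := hc.rotate hu
  have he' : s(u, v) ∈ (c.rotate u hu).edges := by rwa [(c.rotate_edges u hu).mem_iff]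
  have hl : (c.rotate u hu).length = c.length := by
    rw [← Walk.length_edges, ← Walk.length_edges]
    exact (c.rotate_edges u hu).perm.length_eq
  rw [← hl]
  generalize c.rotate u hu = c' at hc' he'
  cases c' with
  | nil => exact absurd he' (by simp)
  | @cons _ w _ h q =>
    rw [Walk.cons_isCycle_iff] at hc'
    obtain ⟨hq, hq'⟩ := hc'
    have hG : ∀ e : Sym2 V, e ∈ (G ⊔ edge u v).edgeSet → e ≠ s(u, v) → e ∈ G.edgeSet := by
      intro e h1 h2
      induction e with | h x y => ?_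
      rw [mem_edgeSet, sup_adj, adj_edge] at h1
      rcases h1 with h1 | h1
      · exact h1
      · exact absurd h1.1.symm h2
    by_cases hw : w = v
    · subst hw
      have hqt : ∀ e ∈ q.edges, e ∈ G.edgeSet := fun e hee =>
        hG e (q.edges_subset_edgeSet hee) (fun h3 => hq' (h3 ▸ hee))
      refine ⟨(q.transfer G hqt).reverse, ?_⟩
      rw [Walk.length_reverse, Walk.length_transfer, Walk.length_cons]
    · have he2 : s(u, v) ∈ q.edges := by
        rw [Walk.edges_cons, List.mem_cons] at he'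
        rcases he' with h3 | h3
        · exact absurd (Sym2.congr_right.mp h3).symm hw
        · exact h3
      have hv : v ∈ q.support := q.snd_mem_support_of_mem_edges he2
      have hut : u ∉ (q.takeUntil v hv).support :=
        Walk.endpoint_notMem_support_takeUntil hq hv huv
      have hqt : ∀ e ∈ (q.takeUntil v hv).edges, e ∈ G.edgeSet := fun e hee =>
        hG e ((q.takeUntil v hv).edges_subset_edgeSet hee)
          (fun h3 => hut ((q.takeUntil v hv).fst_mem_support_of_mem_edges (h3 ▸ hee)))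
      have huw : G.Adj u w := by
        have := hG s(u, w) h (fun h3 => hw (Sym2.congr_right.mp h3))
        exact this
      refine ⟨Walk.cons huw ((q.takeUntil v hv).transfer G hqt), ?_⟩
      rw [Walk.length_cons, Walk.length_transfer, Walk.length_cons]
      have := Walk.length_takeUntil_lt_length hv (Ne.symm huv)
      omega

/-- Every cycle has length at least `g`. -/
def NoShort (G : SimpleGraph V) (g : ℕ) : Prop := ∀ (a : V) (c : G.Walk a a), c.IsCycle → g ≤ c.length

theorem noShort_sup_edge {g : ℕ} (h : NoShort G g) {u v : V} (huv : u ≠ v)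
    (hd : ∀ p : G.Walk u v, g ≤ p.length + 1) : NoShort (G ⊔ edge u v) g := by
  classical
  intro a c hc
  by_cases he : s(u, v) ∈ c.edges
  · obtain ⟨p, hp⟩ := exists_walk_of_cycle huv c hc he
    exact (hd p).trans hp
  · have hct : ∀ e ∈ c.edges, e ∈ G.edgeSet := by
      intro e hee
      have h1 := c.edges_subset_edgeSet hee
      induction e with | h x y => ?_
      rw [mem_edgeSet, sup_adj, adj_edge] at h1
      rcases h1 with h1 | h1
      · exact h1
      · exact absurd (h1.1 ▸ hee) he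
    have := h a (c.transfer G hct) (hc.transfer hct)
    rwa [Walk.length_transfer] at this

/-- Walks in `G ⊔ edge u x` with `x` isolated in `G` retract to `G`. -/
theorem retract_aux {u x : V} (hx : ∀ y, ¬ G.Adj x y) (r : V → V) (hr : ∀ a, a ≠ x → r a = a)
    (hrx : r x = u) (hru : r u = u) {a b : V} (p : (G ⊔ edge u x).Walk a b) :
    ∃ q : G.Walk (r a) (r b), q.length ≤ p.length := by
  induction p with
  | nil => exact ⟨Walk.nil, le_refl _⟩
  | @cons a c b h p ih =>
    obtain ⟨q, hq⟩ := ih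
    rw [sup_adj, edge_adj] at h
    rcases h with h | ⟨⟨h1, h2⟩ | ⟨h1, h2⟩, -⟩
    · have ha : a ≠ x := fun h1 => hx c (h1 ▸ h)
      have hc : c ≠ x := fun h1 => hx a (h1 ▸ h.symm)
      have h' : G.Adj (r a) (r c) := by rw [hr a ha, hr c hc]; exact h
      refine ⟨Walk.cons h' q, ?_⟩
      rw [Walk.length_cons, Walk.length_cons]
      omega
    · have he : r c = r a := by rw [h1, h2, hrx, hru]
      refine ⟨q.copy he rfl, ?_⟩
      rw [Walk.length_copy, Walk.length_cons]
      omega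
    · have he : r c = r a := by rw [h1, h2, hrx, hru]
      refine ⟨q.copy he rfl, ?_⟩
      rw [Walk.length_copy, Walk.length_cons]
      omega

theorem retract {u x v : V} {g : ℕ} (hx : ∀ y, ¬ G.Adj x y) (hux : u ≠ x) (hvx : v ≠ x)
    (hd : ∀ p : G.Walk u v, g ≤ p.length + 1) :
    ∀ p : (G ⊔ edge u x).Walk x v, g ≤ p.length + 1 := by
  classical
  intro p
  obtain ⟨q, hq⟩ := retract_aux hx (fun a => if a = x then u else a) (fun a ha => if_neg ha)
    (if_pos rfl) (if_neg hux) p
  have := hd (q.copy (if_pos rfl) (if_neg hvx))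
  rw [Walk.length_copy] at this
  omega

/-- Attaching an isolated vertex by an edge creates no cycle. -/
theorem noShort_pendant {g : ℕ} (h : NoShort G g) {u x : V} (hux : u ≠ x)
    (hx : ∀ y, ¬ G.Adj x y) : NoShort (G ⊔ edge u x) g := by
  refine noShort_sup_edge h hux fun p => ?_
  have h2 : ∀ (b : V) (q : G.Walk x b), b = x := by
    intro b q
    cases q with
    | nil => rfl
    | cons h q => exact absurd h (hx _)
  exact absurd (h2 u p.reverse) hux

theorem adj_sup_edge {u v a b : V} (huv : u ≠ v) :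
    (G ⊔ edge u v).Adj a b ↔ G.Adj a b ∨ (a = u ∧ b = v) ∨ (a = v ∧ b = u) := by
  rw [sup_adj, edge_adj]
  constructor
  · rintro (h | ⟨h, -⟩)
    · exact Or.inl h
    · exact Or.inr h
  · rintro (h | h)
    · exact Or.inl h
    · refine Or.inr ⟨h, ?_⟩
      rcases h with ⟨rfl, rfl⟩ | ⟨rfl, rfl⟩
      · exact huv
      · exact huv.symm

end walks

section deg
variable {V : Type} [Fintype V]

/-- The degree of a vertex. -/
noncomputable def dg (G : SimpleGraph V) (w : V) : ℕ := (G.neighborSet w).ncard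

open Classical in
theorem dg_sup_edge (G : SimpleGraph V) {u v : V} (w : V) :
    dg (G ⊔ edge u v) w ≤ dg G w + (if w = u then 1 else 0) + (if w = v then 1 else 0) := by
  unfold dg
  by_cases hu : w = u
  · subst hu
    rw [if_pos rfl]
    have : (G ⊔ edge w v).neighborSet w ⊆ insert v (G.neighborSet w) := by
      intro z hz
      rw [mem_neighborSet, sup_adj, edge_adj] at hz
      rcases hz with hz | ⟨⟨-, rfl⟩ | ⟨rfl, rfl⟩, -⟩
      · exact Set.mem_insert_of_mem _ hz
      · exact Set.mem_insert _ _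
      · exact Set.mem_insert _ _
    have h1 := Set.ncard_le_ncard this (Set.toFinite _)
    have h2 := Set.ncard_insert_le v (G.neighborSet w)
    omega
  · rw [if_neg hu]
    by_cases hv : w = v
    · subst hv
      rw [if_pos rfl]
      have : (G ⊔ edge u w).neighborSet w ⊆ insert u (G.neighborSet w) := by
        intro z hz
        rw [mem_neighborSet, sup_adj, edge_adj] at hz
        rcases hz with hz | ⟨⟨h, -⟩ | ⟨-, rfl⟩, -⟩
        · exact Set.mem_insert_of_mem _ hz
        · exact absurd h hu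
        · exact Set.mem_insert _ _
      have h1 := Set.ncard_le_ncard this (Set.toFinite _)
      have h2 := Set.ncard_insert_le u (G.neighborSet w)
      omega
    · rw [if_neg hv]
      have : (G ⊔ edge u v).neighborSet w ⊆ G.neighborSet w := by
        intro z hz
        rw [mem_neighborSet, sup_adj, edge_adj] at hz
        rcases hz with hz | ⟨⟨h, -⟩ | ⟨h, -⟩, -⟩
        · exact hz
        · exact absurd h hu
        · exact absurd h hv
      have h1 := Set.ncard_le_ncard this (Set.toFinite _)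
      omega

theorem dg_le_sup_edge (G : SimpleGraph V) {u v : V} (w : V) :
    dg G w ≤ dg (G ⊔ edge u v) w :=
  Set.ncard_le_ncard (fun _ hz => Or.inl hz) (Set.toFinite _)

theorem sum_dg_sup_edge (G : SimpleGraph V) {u v : V} :
    ∑ w, dg (G ⊔ edge u v) w ≤ ∑ w, dg G w + 2 := by
  classical
  calc ∑ w, dg (G ⊔ edge u v) w
      ≤ ∑ w, (dg G w + (if w = u then 1 else 0) + (if w = v then 1 else 0)) :=
        Finset.sum_le_sum fun w _ => dg_sup_edge G w
    _ = ∑ w, dg G w + 2 := by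
        rw [Finset.sum_add_distrib, Finset.sum_add_distrib, Finset.sum_ite_eq' Finset.univ u,
          Finset.sum_ite_eq' Finset.univ v]
        simp

theorem dg_isolated {G : SimpleGraph V} {x : V} (hx : ∀ y, ¬ G.Adj x y) : dg G x = 0 := by
  unfold dg
  rw [Set.ncard_eq_zero (Set.toFinite _)]
  ext y
  simp [hx y]

open Classical in
/-- The vertices that can reach `v` by a walk of length at most `r`. -/
noncomputable def ball (G : SimpleGraph V) (v : V) (r : ℕ) : Finset V :=
  Finset.univ.filter fun w => ∃ p : G.Walk w v, p.length ≤ r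

theorem card_ball_le (G : SimpleGraph V) (v : V) (Δ : ℕ) (hΔ : ∀ w, dg G w ≤ Δ) (r : ℕ) :
    (ball G v r).card ≤ (Δ + 1) ^ r := by
  classical
  induction r with
  | zero =>
    have : ball G v 0 ⊆ {v} := by
      intro w hw
      unfold ball at hw
      rw [Finset.mem_filter] at hw
      obtain ⟨-, p, hp⟩ := hw
      rw [Finset.mem_singleton]
      exact Walk.eq_of_length_eq_zero (Nat.le_zero.mp hp)
    have := Finset.card_le_card this
    rwa [Finset.card_singleton] at this
  | succ r ih =>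
    have hsub : ball G v (r + 1) ⊆
        (ball G v r).biUnion fun w => insert w (G.neighborSet w).toFinset := by
      intro w hw
      unfold ball at hw
      rw [Finset.mem_filter] at hw
      obtain ⟨-, p, hp⟩ := hw
      rw [Finset.mem_biUnion]
      cases p with
      | nil =>
        exact ⟨v, Finset.mem_filter.mpr ⟨Finset.mem_univ _, Walk.nil, Nat.zero_le _⟩,
          Finset.mem_insert_self _ _⟩
      | @cons _ c _ h q =>
        refine ⟨c, Finset.mem_filter.mpr ⟨Finset.mem_univ _, q, ?_⟩, ?_⟩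
        · rw [Walk.length_cons] at hp
          omega
        · apply Finset.mem_insert_of_mem
          rw [Set.mem_toFinset]
          exact h.symm
    calc (ball G v (r + 1)).card
        ≤ ((ball G v r).biUnion fun w => insert w (G.neighborSet w).toFinset).card :=
          Finset.card_le_card hsub
      _ ≤ (ball G v r).card * (Δ + 1) := by
          apply Finset.card_biUnion_le_card_mul
          intro w _
          refine (Finset.card_insert_le _ _).trans ?_
          have := hΔ w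
          unfold dg at this
          rw [Set.ncard_eq_toFinset_card'] at this
          omega
      _ ≤ (Δ + 1) ^ r * (Δ + 1) := Nat.mul_le_mul_right _ ih
      _ = (Δ + 1) ^ (r + 1) := (pow_succ _ _).symm

/-- The pairs of branch vertices that may be joined. -/
def Allowed {N : ℕ} (β : Fin N → V) (G : SimpleGraph V) (Δ g : ℕ) (p : Fin N × Fin N) : Prop :=
  dg G (β p.1) < Δ ∧ dg G (β p.2) < Δ ∧ ∀ q : G.Walk (β p.1) (β p.2), g ≤ q.length + 1

theorem card_high_le (G : SimpleGraph V) {N : ℕ} (β : Fin N → V) (hβ : Function.Injective β)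
    (Δ Q : ℕ) (hQ : ∑ w, dg G w ≤ Q) :
    (Finset.univ.filter fun b : Fin N => Δ ≤ dg G (β b)).card * Δ ≤ Q := by
  classical
  calc (Finset.univ.filter fun b : Fin N => Δ ≤ dg G (β b)).card * Δ
      = ∑ b ∈ Finset.univ.filter fun b : Fin N => Δ ≤ dg G (β b), Δ := by
        rw [Finset.sum_const, smul_eq_mul]
    _ ≤ ∑ b ∈ Finset.univ.filter fun b : Fin N => Δ ≤ dg G (β b), dg G (β b) :=
        Finset.sum_le_sum fun b hb => (Finset.mem_filter.mp hb).2
    _ = ∑ w ∈ (Finset.univ.filter fun b : Fin N => Δ ≤ dg G (β b)).image β, dg G w := by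
        rw [Finset.sum_image fun a _ b _ h => hβ h]
    _ ≤ ∑ w, dg G w := Finset.sum_le_sum_of_subset (Finset.subset_univ _)
    _ ≤ Q := hQ

open Classical in
theorem card_not_allowed_le (G : SimpleGraph V) {N : ℕ} (β : Fin N → V)
    (hβ : Function.Injective β) (Δ g Q : ℕ) (hΔ : ∀ w, dg G w ≤ Δ) (hQ : ∑ w, dg G w ≤ Q) :
    (Finset.univ.filter fun p : Fin N × Fin N => ¬ Allowed β G Δ g p).card * Δ ≤
      2 * N * Q + N * (Δ + 1) ^ g * Δ := by
  have hsub : (Finset.univ.filter fun p : Fin N × Fin N => ¬ Allowed β G Δ g p) ⊆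
      ((Finset.univ.filter fun b : Fin N => Δ ≤ dg G (β b)) ×ˢ Finset.univ) ∪
      ((Finset.univ ×ˢ (Finset.univ.filter fun b : Fin N => Δ ≤ dg G (β b))) ∪
      (Finset.univ.filter fun p : Fin N × Fin N => β p.1 ∈ ball G (β p.2) g)) := by
    intro p hp
    rw [Finset.mem_filter] at hp
    rw [Finset.mem_union, Finset.mem_union, Finset.mem_product, Finset.mem_product,
      Finset.mem_filter, Finset.mem_filter, Finset.mem_filter]
    by_contra hc
    push Not at hc
    apply hp.2
    refine ⟨?_, ?_, ?_⟩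
    · by_contra h1
      exact hc.1 ⟨Finset.mem_univ _, not_lt.mp h1⟩ (Finset.mem_univ _)
    · by_contra h1
      exact h1 (hc.2.1 (Finset.mem_univ _) (Finset.mem_univ _))
    · intro q
      by_contra h1
      apply hc.2.2 (Finset.mem_univ _)
      unfold ball
      rw [Finset.mem_filter]
      exact ⟨Finset.mem_univ _, q, by omega⟩
  have h3 : (Finset.univ.filter fun p : Fin N × Fin N => β p.1 ∈ ball G (β p.2) g).card ≤
      N * (Δ + 1) ^ g := by
    have hs : (Finset.univ.filter fun p : Fin N × Fin N => β p.1 ∈ ball G (β p.2) g) ⊆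
        (Finset.univ : Finset (Fin N)).biUnion fun b =>
          (Finset.univ.filter fun a : Fin N => β a ∈ ball G (β b) g).image fun a => (a, b) := by
      intro p hp
      rw [Finset.mem_filter] at hp
      rw [Finset.mem_biUnion]
      refine ⟨p.2, Finset.mem_univ _, ?_⟩
      rw [Finset.mem_image]
      exact ⟨p.1, Finset.mem_filter.mpr ⟨Finset.mem_univ _, hp.2⟩, rfl⟩
    refine (Finset.card_le_card hs).trans ?_
    have := Finset.card_biUnion_le_card_mul (Finset.univ : Finset (Fin N))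
      (fun b => (Finset.univ.filter fun a : Fin N => β a ∈ ball G (β b) g).image fun a => (a, b))
      ((Δ + 1) ^ g) (by
        intro b _
        refine Finset.card_image_le.trans ?_
        refine le_trans ?_ (card_ball_le G (β b) Δ hΔ g)
        refine Finset.card_le_card_of_injOn β ?_ (fun a _ c _ h => hβ h)
        intro a ha
        exact (Finset.mem_filter.mp ha).2)
    rwa [Finset.card_univ, Fintype.card_fin] at this
  have h1 := card_high_le G β hβ Δ Q hQ
  have h4 := (Finset.card_le_card hsub).trans (Finset.card_union_le _ _)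
  have h5 := Finset.card_union_le
    ((Finset.univ : Finset (Fin N)) ×ˢ (Finset.univ.filter fun b : Fin N => Δ ≤ dg G (β b)))
    (Finset.univ.filter fun p : Fin N × Fin N => β p.1 ∈ ball G (β p.2) g)
  rw [Finset.card_product, Finset.card_univ, Fintype.card_fin] at h4 h5
  set h := (Finset.univ.filter fun b : Fin N => Δ ≤ dg G (β b)).card
  calc _ ≤ (h * N + (N * h + N * (Δ + 1) ^ g)) * Δ := Nat.mul_le_mul_right _ (by omega)
    _ = 2 * N * (h * Δ) + N * (Δ + 1) ^ g * Δ := by ring
    _ ≤ _ := by gcongr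


/-- Choosing a pair that is allowed and does not exceed the average by much. -/
theorem select (G : SimpleGraph V) {N : ℕ} (hN : 0 < N) (β : Fin N → V)
    (hβ : Function.Injective β) (Δ g Q : ℕ) (hΔ : ∀ w, dg G w ≤ Δ) (hQ : ∑ w, dg G w ≤ Q)
    (δ : ℝ) (hδ1 : δ < 1) (hΔ0 : 0 < Δ)
    (hδ : 2 * (N : ℝ) * Q + N * (Δ + 1) ^ g * Δ ≤ δ * N ^ 2 * Δ)
    (F : Fin N × Fin N → ℝ) (hF : ∀ p, 0 ≤ F p) (c : ℝ) (hc : 0 ≤ c)
    (hs : ∑ p, F p ≤ N ^ 2 * c) :
    ∃ p, Allowed β G Δ g p ∧ (1 - δ) * F p ≤ c := by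
  classical
  by_contra hno
  push Not at hno
  have hcard := card_not_allowed_le G β hβ Δ g Q hΔ hQ
  set bad := Finset.univ.filter fun p : Fin N × Fin N => ¬ Allowed β G Δ g p with hbad
  set good := Finset.univ.filter fun p : Fin N × Fin N => Allowed β G Δ g p with hgood
  have hNr : (0 : ℝ) < N := by exact_mod_cast hN
  have hΔr : (0 : ℝ) < Δ := by exact_mod_cast hΔ0
  have hb : (bad.card : ℝ) ≤ δ * N ^ 2 := by
    have h1 : (bad.card : ℝ) * Δ ≤ 2 * N * Q + N * (Δ + 1) ^ g * Δ := by exact_mod_cast hcard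
    have h2 := h1.trans hδ
    exact le_of_mul_le_mul_right h2 hΔr
  have htot : (good.card : ℝ) + bad.card = N ^ 2 := by
    have := Finset.card_filter_add_card_filter_not (s := (Finset.univ : Finset (Fin N × Fin N)))
      (fun p => Allowed β G Δ g p)
    rw [Finset.card_univ, Fintype.card_prod, Fintype.card_fin] at this
    rw [hgood, hbad, sq]
    exact_mod_cast this
  have hg : (1 - δ) * N ^ 2 ≤ (good.card : ℝ) := by
    have : (1 - δ) * N ^ 2 = (N : ℝ) ^ 2 - δ * N ^ 2 := by ring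
    rw [this]
    linarith
  have hg0 : (0 : ℝ) < good.card := lt_of_lt_of_le (mul_pos (by linarith) (by positivity)) hg
  have hne : good.Nonempty := Finset.card_pos.mp (by exact_mod_cast hg0)
  have h1 : (good.card : ℝ) * c < ∑ p ∈ good, (1 - δ) * F p := by
    rw [← nsmul_eq_mul, ← Finset.sum_const]
    exact Finset.sum_lt_sum_of_nonempty hne fun p hp => hno p (Finset.mem_filter.mp hp).2
  have h2 : ∑ p ∈ good, (1 - δ) * F p ≤ (1 - δ) * ∑ p, F p := by
    rw [← Finset.mul_sum]
    exact mul_le_mul_of_nonneg_left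
      (Finset.sum_le_sum_of_subset_of_nonneg (Finset.subset_univ _) fun p _ _ => hF p)
      (by linarith)
  have h3 : (1 - δ) * ∑ p, F p ≤ (1 - δ) * (N ^ 2 * c) :=
    mul_le_mul_of_nonneg_left hs (by linarith)
  have h4 : (1 - δ) * (N ^ 2 * c) ≤ good.card * c := by
    rw [← mul_assoc]
    exact mul_le_mul_of_nonneg_right hg hc
  linarith

open Classical in
/-- The averaging inequality for one choice. -/
theorem average {N : ℕ} (hN : 0 < N) (E : Fin N × Fin N → Prop) (μ q : ℝ)
    (hq : q = 1 - Real.exp (-μ)) :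
    ∑ p, Real.exp (-μ * (if E p then 1 else 0) +
      q * ((Finset.univ.filter E).card / N ^ 2)) ≤ (N : ℝ) ^ 2 := by
  have hNr : (0 : ℝ) < N := by exact_mod_cast hN
  set k : ℝ := ((Finset.univ.filter E).card : ℝ) with hk
  have h1 : ∑ p : Fin N × Fin N, Real.exp (-μ * (if E p then 1 else 0)) =
      N ^ 2 - k * q := by
    have h2 : ∀ p : Fin N × Fin N, Real.exp (-μ * (if E p then (1 : ℝ) else 0)) =
        1 - (if E p then q else 0) := by
      intro p
      by_cases h : E p
      · rw [if_pos h, if_pos h, hq]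
        ring_nf
      · rw [if_neg h, if_neg h]
        simp
    rw [Finset.sum_congr rfl fun p _ => h2 p, Finset.sum_sub_distrib, ← Finset.sum_filter,
      Finset.sum_const, Finset.sum_const, Finset.card_univ, Fintype.card_prod, Fintype.card_fin,
      nsmul_eq_mul, nsmul_eq_mul, hk]
    push_cast
    ring
  have h3 : ∀ p : Fin N × Fin N, Real.exp (-μ * (if E p then (1 : ℝ) else 0) + q * (k / N ^ 2)) =
      Real.exp (-μ * (if E p then (1 : ℝ) else 0)) * Real.exp (q * (k / N ^ 2)) := fun p =>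
    Real.exp_add _ _
  rw [Finset.sum_congr rfl fun p _ => h3 p, ← Finset.sum_mul, h1]
  have h4 : (N : ℝ) ^ 2 - k * q = N ^ 2 * (1 - q * (k / N ^ 2)) := by
    field_simp
  have h5 : 1 - q * (k / N ^ 2) ≤ Real.exp (-(q * (k / N ^ 2))) := by
    have := Real.add_one_le_exp (-(q * (k / N ^ 2)))
    linarith
  rw [h4]
  calc (N : ℝ) ^ 2 * (1 - q * (k / N ^ 2)) * Real.exp (q * (k / N ^ 2))
      ≤ (N : ℝ) ^ 2 * Real.exp (-(q * (k / N ^ 2))) * Real.exp (q * (k / N ^ 2)) := by gcongr
    _ = (N : ℝ) ^ 2 := by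
        rw [mul_assoc, ← Real.exp_add, neg_add_cancel, Real.exp_zero, mul_one]

end deg


section attach
variable {V : Type} [Fintype V]

omit [Fintype V] in
theorem adj_sup_edge' {G : SimpleGraph V} {u v a b : V} (huv : u ≠ v) :
    (G ⊔ edge u v).Adj a b ↔ G.Adj a b ∨ (a = u ∧ b = v) ∨ (a = v ∧ b = u) :=
  adj_sup_edge huv

theorem attach1 (G : SimpleGraph V) (g Δ : ℕ) (u x v : V) (hux : u ≠ x) (hxv : x ≠ v)
    (huv : u ≠ v) (hns : NoShort G g) (hx : ∀ y, ¬ G.Adj x y) (hu : dg G u < Δ) (hv : dg G v < Δ)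
    (hd : ∀ q : G.Walk u v, g ≤ q.length + 1) (hΔ : ∀ w, dg G w ≤ Δ) (h2 : 2 ≤ Δ) :
    NoShort (G ⊔ edge u x ⊔ edge x v) g ∧ (∀ w, dg (G ⊔ edge u x ⊔ edge x v) w ≤ Δ) ∧
      ∑ w, dg (G ⊔ edge u x ⊔ edge x v) w ≤ ∑ w, dg G w + 4 := by
  classical
  refine ⟨?_, ?_, ?_⟩
  · refine noShort_sup_edge (noShort_pendant hns hux hx) hxv ?_
    exact retract hx hux (Ne.symm hxv) hd
  · intro w
    have h1 := dg_sup_edge (G ⊔ edge u x) (u := x) (v := v) w
    have h3 := dg_sup_edge G (u := u) (v := x) w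
    have h4 := hΔ w
    by_cases hwu : w = u
    · subst hwu
      rw [if_neg hux, if_neg huv] at h1
      rw [if_pos rfl, if_neg hux] at h3
      omega
    · rw [if_neg hwu] at h3
      by_cases hwx : w = x
      · subst hwx
        rw [if_pos rfl, if_neg hxv] at h1
        rw [if_pos rfl, dg_isolated hx] at h3
        omega
      · rw [if_neg hwx] at h1 h3
        by_cases hwv : w = v
        · subst hwv
          rw [if_pos rfl] at h1
          omega
        · rw [if_neg hwv] at h1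
          omega
  · have h1 := sum_dg_sup_edge (G ⊔ edge u x) (u := x) (v := v)
    have h3 := sum_dg_sup_edge G (u := u) (v := x)
    omega

theorem attach2 (G : SimpleGraph V) (g Δ : ℕ) (u x y v : V) (hux : u ≠ x) (huy : u ≠ y)
    (hxy : x ≠ y) (hxv : x ≠ v) (hyv : y ≠ v)
    (huv : u ≠ v) (hns : NoShort G g) (hx : ∀ z, ¬ G.Adj x z) (hy : ∀ z, ¬ G.Adj y z)
    (hu : dg G u < Δ) (hv : dg G v < Δ)
    (hd : ∀ q : G.Walk u v, g ≤ q.length + 1) (hΔ : ∀ w, dg G w ≤ Δ) (h2 : 2 ≤ Δ) :
    NoShort (G ⊔ edge u x ⊔ edge x y ⊔ edge y v) g ∧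
      (∀ w, dg (G ⊔ edge u x ⊔ edge x y ⊔ edge y v) w ≤ Δ) ∧
      ∑ w, dg (G ⊔ edge u x ⊔ edge x y ⊔ edge y v) w ≤ ∑ w, dg G w + 6 := by
  classical
  have hy' : ∀ z, ¬ (G ⊔ edge u x).Adj y z := by
    intro z
    rw [adj_sup_edge' hux]
    rintro (h | ⟨h, -⟩ | ⟨h, -⟩)
    · exact hy z h
    · exact huy h.symm
    · exact hxy h.symm
  refine ⟨?_, ?_, ?_⟩
  · refine noShort_sup_edge (noShort_pendant (noShort_pendant hns hux hx) hxy hy') hyv ?_
    exact retract hy' hxy (Ne.symm hyv) (retract hx hux (Ne.symm hxv) hd)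
  · intro w
    have h1 := dg_sup_edge (G ⊔ edge u x ⊔ edge x y) (u := y) (v := v) w
    have h0 := dg_sup_edge (G ⊔ edge u x) (u := x) (v := y) w
    have h3 := dg_sup_edge G (u := u) (v := x) w
    have h4 := hΔ w
    by_cases hwu : w = u
    · subst hwu
      rw [if_neg huy, if_neg huv] at h1
      rw [if_neg hux, if_neg huy] at h0
      rw [if_pos rfl, if_neg hux] at h3
      omega
    · rw [if_neg hwu] at h3
      by_cases hwx : w = x
      · subst hwx
        rw [if_neg hxy, if_neg hxv] at h1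
        rw [if_pos rfl, if_neg hxy] at h0
        rw [if_pos rfl, dg_isolated hx] at h3
        omega
      · rw [if_neg hwx] at h0 h3
        by_cases hwy : w = y
        · subst hwy
          rw [if_pos rfl, if_neg hyv] at h1
          rw [if_pos rfl] at h0
          rw [dg_isolated hy] at h3
          omega
        · rw [if_neg hwy] at h1 h0
          by_cases hwv : w = v
          · subst hwv
            rw [if_pos rfl] at h1
            omega
          · rw [if_neg hwv] at h1
            omega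
  · have h1 := sum_dg_sup_edge (G ⊔ edge u x ⊔ edge x y) (u := y) (v := v)
    have h0 := sum_dg_sup_edge (G ⊔ edge u x) (u := x) (v := y)
    have h3 := sum_dg_sup_edge G (u := u) (v := x)
    omega

end attach

section cyc
variable {V : Type}

/-- The path with edges `b i, b (i+1)` for `i < k`. -/
def pth (b : ℕ → V) : ℕ → SimpleGraph V
  | 0 => ⊥
  | k + 1 => pth b k ⊔ edge (b k) (b (k + 1))

theorem pth_adj (b : ℕ → V) (N : ℕ) (hb : ∀ i j, i < N → j < N → b i = b j → i = j) (k : ℕ)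
    (hk : k < N) (x y : V) : (pth b k).Adj x y ↔
      ∃ i, i < k ∧ ((x = b i ∧ y = b (i + 1)) ∨ (x = b (i + 1) ∧ y = b i)) := by
  induction k with
  | zero =>
    constructor
    · intro h
      exact absurd h (by simp [pth])
    · rintro ⟨i, hi, -⟩
      omega
  | succ k ih =>
    have hne : b k ≠ b (k + 1) := fun h => by
      have := hb _ _ (by omega) hk h
      omega
    rw [pth, adj_sup_edge hne, ih (by omega)]
    constructor
    · rintro (⟨i, hi, h⟩ | h)
      · exact ⟨i, by omega, h⟩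
      · exact ⟨k, by omega, h⟩
    · rintro ⟨i, hi, h⟩
      by_cases hik : i = k
      · subst hik
        exact Or.inr h
      · exact Or.inl ⟨i, by omega, h⟩

theorem pth_noShort (b : ℕ → V) (N : ℕ) (hb : ∀ i j, i < N → j < N → b i = b j → i = j) (k : ℕ)
    (hk : k < N) (g : ℕ) : NoShort (pth b k) g := by
  induction k with
  | zero =>
    intro a c hc
    exact absurd rfl hc.ne_bot
  | succ k ih =>
    have hne : b k ≠ b (k + 1) := fun h => by
      have := hb _ _ (by omega) hk h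
      omega
    refine noShort_pendant (ih (by omega)) hne ?_
    intro y
    rw [pth_adj b N hb k (by omega)]
    rintro ⟨i, hi, ⟨h, -⟩ | ⟨h, -⟩⟩
    · have := hb _ _ hk (by omega) h
      omega
    · have := hb _ _ hk (by omega) h
      omega

theorem pth_walk (b : ℕ → V) (N : ℕ) (hb : ∀ i j, i < N → j < N → b i = b j → i = j) (k : ℕ)
    (hk : k < N) {x y : V} (p : (pth b k).Walk x y) :
    ∀ i j, i < N → j < N → x = b i → y = b j → j ≤ i + p.length := by
  induction p with
  | nil =>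
    intro i j hi hj h1 h2
    have := hb _ _ hi hj (h1.symm.trans h2)
    omega
  | @cons x z y h p ih =>
    intro i j hi hj h1 h2
    rw [pth_adj b N hb k hk] at h
    rw [Walk.length_cons]
    obtain ⟨l, hl, ⟨h3, h4⟩ | ⟨h3, h4⟩⟩ := h
    · have h5 := ih (l + 1) j (by omega) hj h4 h2
      have := hb _ _ hi (by omega) (h1.symm.trans h3)
      omega
    · have h5 := ih l j (by omega) hj h4 h2
      have := hb _ _ hi (by omega) (h1.symm.trans h3)
      omega

theorem exists_cycle [Fintype V] (b : ℕ → V) (N g : ℕ) (hN : 3 ≤ N) (hg : g ≤ N)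
    (hb : ∀ i j, i < N → j < N → b i = b j → i = j) :
    ∃ G : SimpleGraph V, NoShort G g ∧ (∀ x y, G.Adj x y → ∃ i, i < N ∧ x = b i) ∧
      (∀ i, i < N → 2 ≤ dg G (b i)) ∧ (∀ w, dg G w ≤ 4) ∧ ∑ w, dg G w ≤ 2 * N := by
  classical
  obtain ⟨m, rfl⟩ : ∃ m, N = m + 1 := ⟨N - 1, by omega⟩
  have hne : b 0 ≠ b m := fun h => by
    have := hb _ _ (by omega) (by omega) h
    omega
  have hadj := pth_adj b (m + 1) hb m (by omega)
  refine ⟨pth b m ⊔ edge (b 0) (b m), ?_, ?_, ?_, ?_, ?_⟩
  · refine noShort_sup_edge (pth_noShort b (m + 1) hb m (by omega) g) hne ?_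
    intro p
    have := pth_walk b (m + 1) hb m (by omega) p 0 m (by omega) (by omega) rfl rfl
    omega
  · intro x y h
    rw [adj_sup_edge hne, hadj] at h
    rcases h with ⟨i, hi, ⟨h, -⟩ | ⟨h, -⟩⟩ | ⟨h, -⟩ | ⟨h, -⟩
    · exact ⟨i, by omega, h⟩
    · exact ⟨i + 1, by omega, h⟩
    · exact ⟨0, by omega, h⟩
    · exact ⟨m, by omega, h⟩
  · intro i hi
    have key : ∀ p q, p < m + 1 → q < m + 1 → p ≠ q →
        (pth b m ⊔ edge (b 0) (b m)).Adj (b i) (b p) →
        (pth b m ⊔ edge (b 0) (b m)).Adj (b i) (b q) →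
        2 ≤ dg (pth b m ⊔ edge (b 0) (b m)) (b i) := by
      intro p q hp hq hpq h1 h2
      have hbne : b p ≠ b q := fun h => hpq (hb _ _ hp hq h)
      have hsub : ({b p, b q} : Set V) ⊆
          (pth b m ⊔ edge (b 0) (b m)).neighborSet (b i) := by
        intro z hz
        rcases hz with rfl | hz
        · exact h1
        · rw [Set.mem_singleton_iff] at hz
          rw [hz]
          exact h2
      have := Set.ncard_le_ncard hsub (Set.toFinite _)
      rw [Set.ncard_pair hbne] at this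
      exact this
    by_cases h0 : i = 0
    · subst h0
      refine key 1 m (by omega) (by omega) (by omega) ?_ ?_
      · rw [adj_sup_edge hne, hadj]
        exact Or.inl ⟨0, by omega, Or.inl ⟨rfl, rfl⟩⟩
      · rw [adj_sup_edge hne]
        exact Or.inr (Or.inl ⟨rfl, rfl⟩)
    · by_cases hm : i = m
      · subst hm
        refine key (i - 1) 0 (by omega) (by omega) (by omega) ?_ ?_
        · rw [adj_sup_edge hne, hadj]
          refine Or.inl ⟨i - 1, by omega, Or.inr ⟨?_, rfl⟩⟩
          congr 1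
          omega
        · rw [adj_sup_edge hne]
          exact Or.inr (Or.inr ⟨rfl, rfl⟩)
      · refine key (i - 1) (i + 1) (by omega) (by omega) (by omega) ?_ ?_
        · rw [adj_sup_edge hne, hadj]
          refine Or.inl ⟨i - 1, by omega, Or.inr ⟨?_, rfl⟩⟩
          congr 1
          omega
        · rw [adj_sup_edge hne, hadj]
          exact Or.inl ⟨i, by omega, Or.inl ⟨rfl, rfl⟩⟩
  · intro w
    by_cases hw : ∃ i, i < m + 1 ∧ w = b i
    · obtain ⟨i, hi, rfl⟩ := hw
      have hsub : (pth b m ⊔ edge (b 0) (b m)).neighborSet (b i) ⊆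
          ((({b (i + 1), b (i - 1), b m, b 0} : Finset V)) : Set V) := by
        intro z hz
        rw [mem_neighborSet, adj_sup_edge hne, hadj] at hz
        rcases hz with ⟨l, hl, ⟨h, h'⟩ | ⟨h, h'⟩⟩ | ⟨h, h'⟩ | ⟨h, h'⟩
        · have := hb _ _ hi (by omega) h
          subst this
          simp [h']
        · have := hb _ _ hi (by omega) h
          subst this
          simp [h']
        · simp [h']
        · simp [h']
      have h1 := Set.ncard_le_ncard hsub (Set.toFinite _)
      rw [Set.ncard_coe_finset] at h1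
      exact h1.trans Finset.card_le_four
    · have : dg (pth b m ⊔ edge (b 0) (b m)) w = 0 := by
        apply dg_isolated
        intro y h
        apply hw
        rw [adj_sup_edge hne, hadj] at h
        rcases h with ⟨i, hi, ⟨h, -⟩ | ⟨h, -⟩⟩ | ⟨h, -⟩ | ⟨h, -⟩
        · exact ⟨i, by omega, h⟩
        · exact ⟨i + 1, by omega, h⟩
        · exact ⟨0, by omega, h⟩
        · exact ⟨m, by omega, h⟩
      omega
  · have h1 := sum_dg_sup_edge (pth b m) (u := b 0) (v := b m)
    have h2 : ∀ k, ∑ w, dg (pth b k) w ≤ 2 * k := by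
      intro k
      induction k with
      | zero =>
        have : ∑ w, dg (pth b 0) w = 0 := by
          apply Finset.sum_eq_zero
          intro w _
          apply dg_isolated
          intro y h
          exact absurd h (by simp [pth])
        omega
      | succ k ih =>
        have h3 := sum_dg_sup_edge (pth b k) (u := b k) (v := b (k + 1))
        rw [pth]
        omega
    have h3 := h2 m
    omega

end cyc


section main

/-- The vertex set: `N` branch vertices, the `M` internal vertices of the first kind and the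
two internal vertices of each of the `M` paths of the second kind. -/
abbrev W (N M : ℕ) : Type := Fin N ⊕ (Fin M ⊕ (Fin M ⊕ Fin M))

variable {N M : ℕ}

/-- Branch vertices. -/
def bv (b : Fin N) : W N M := Sum.inl b
/-- Internal vertices of the paths of the first kind. -/
def xv (i : Fin M) : W N M := Sum.inr (Sum.inl i)
/-- First internal vertices of the paths of the second kind. -/
def yv (i : Fin M) : W N M := Sum.inr (Sum.inr (Sum.inl i))
/-- Second internal vertices of the paths of the second kind. -/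
def zv (i : Fin M) : W N M := Sum.inr (Sum.inr (Sum.inr i))

theorem bv_inj : Function.Injective (bv : Fin N → W N M) := fun _ _ h => Sum.inl_injective h
theorem bv_ne_xv (b : Fin N) (i : Fin M) : (bv b : W N M) ≠ xv i := fun h => by cases h
theorem bv_ne_yv (b : Fin N) (i : Fin M) : (bv b : W N M) ≠ yv i := fun h => by cases h
theorem bv_ne_zv (b : Fin N) (i : Fin M) : (bv b : W N M) ≠ zv i := fun h => by cases h
theorem xv_ne_yv (i j : Fin M) : (xv i : W N M) ≠ yv j := fun h => by cases h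
theorem xv_ne_zv (i j : Fin M) : (xv i : W N M) ≠ zv j := fun h => by cases h
theorem yv_ne_zv (i j : Fin M) : (yv i : W N M) ≠ zv j := fun h => by cases h
theorem xv_inj {i j : Fin M} (h : (xv i : W N M) = xv j) : i = j := by
  simpa [xv] using h
theorem yv_inj {i j : Fin M} (h : (yv i : W N M) = yv j) : i = j := by
  simpa [yv] using h
theorem zv_inj {i j : Fin M} (h : (zv i : W N M) = zv j) : i = j := by
  simpa [zv] using h

/-- The state of the construction after `t` rounds. -/
structure Inv (N M Δ g t : ℕ) (e1 e2 : ℕ → Fin N × Fin N) (G : SimpleGraph (W N M)) : Prop where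
  ns : NoShort G g
  isox : ∀ i : Fin M, t ≤ i.val → ∀ w, ¬ G.Adj (xv i) w
  isoy : ∀ i : Fin M, t ≤ i.val → ∀ w, ¬ G.Adj (yv i) w
  isoz : ∀ i : Fin M, t ≤ i.val → ∀ w, ¬ G.Adj (zv i) w
  ne1 : ∀ i, i < t → (e1 i).1 ≠ (e1 i).2
  hx : ∀ i : Fin M, i.val < t → ∀ w, G.Adj (xv i) w ↔ w = bv (e1 i).1 ∨ w = bv (e1 i).2
  hy : ∀ i : Fin M, i.val < t → ∀ w, G.Adj (yv i) w ↔ w = bv (e2 i).1 ∨ w = zv i
  hz : ∀ i : Fin M, i.val < t → ∀ w, G.Adj (zv i) w ↔ w = yv i ∨ w = bv (e2 i).2
  dmax : ∀ w, dg G w ≤ Δ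
  dsum : ∑ w, dg G w ≤ 2 * N + 10 * t
  dmin : ∀ b, 2 ≤ dg G (bv b)

theorem Inv.next {Δ g t : ℕ} (hg : 2 ≤ g) (hΔ : 2 ≤ Δ) {e1 e2 : ℕ → Fin N × Fin N}
    {G : SimpleGraph (W N M)} (h : Inv N M Δ g t e1 e2 G) (ht : t < M) (p : Fin N × Fin N)
    (hp : Allowed (bv : Fin N → W N M) G Δ g p) :
    (∀ w, dg (G ⊔ edge (bv p.1) (xv ⟨t, ht⟩) ⊔ edge (xv ⟨t, ht⟩) (bv p.2)) w ≤ Δ) ∧
    ∑ w, dg (G ⊔ edge (bv p.1) (xv ⟨t, ht⟩) ⊔ edge (xv ⟨t, ht⟩) (bv p.2)) w ≤
      2 * N + 10 * t + 4 ∧
    ∀ p' : Fin N × Fin N,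
      Allowed (bv : Fin N → W N M)
        (G ⊔ edge (bv p.1) (xv ⟨t, ht⟩) ⊔ edge (xv ⟨t, ht⟩) (bv p.2)) Δ g p' →
      ∃ G', Inv N M Δ g (t + 1) (Function.update e1 t p) (Function.update e2 t p') G' := by
  have hp12 : p.1 ≠ p.2 := by
    intro h1
    have := hp.2.2 ((Walk.nil : G.Walk (bv p.1) (bv p.1)).copy rfl (by rw [h1]))
    rw [Walk.length_copy, Walk.length_nil] at this
    omega
  have hb12 : (bv p.1 : W N M) ≠ bv p.2 := fun h1 => hp12 (bv_inj h1)
  set T : Fin M := ⟨t, ht⟩ with hT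
  obtain ⟨a1, a2, a3⟩ := attach1 G g Δ (bv p.1) (xv T) (bv p.2) (bv_ne_xv _ _)
    (bv_ne_xv _ _).symm hb12 h.ns (h.isox T (le_refl _)) hp.1 hp.2.1 hp.2.2 h.dmax hΔ
  have hadj1 : ∀ a b : W N M, (G ⊔ edge (bv p.1) (xv T) ⊔ edge (xv T) (bv p.2)).Adj a b ↔
      (G.Adj a b ∨ (a = bv p.1 ∧ b = xv T) ∨ (a = xv T ∧ b = bv p.1)) ∨
      (a = xv T ∧ b = bv p.2) ∨ (a = bv p.2 ∧ b = xv T) := by
    intro a b
    rw [adj_sup_edge (bv_ne_xv _ _).symm, adj_sup_edge (bv_ne_xv _ _)]
  set G1 := G ⊔ edge (bv p.1) (xv T) ⊔ edge (xv T) (bv p.2) with hG1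
  refine ⟨a2, by have := h.dsum; omega, ?_⟩
  intro p' hp'
  have hp12' : p'.1 ≠ p'.2 := by
    intro h1
    have := hp'.2.2 ((Walk.nil : G1.Walk (bv p'.1) (bv p'.1)).copy rfl (by rw [h1]))
    rw [Walk.length_copy, Walk.length_nil] at this
    omega
  have hb12' : (bv p'.1 : W N M) ≠ bv p'.2 := fun h1 => hp12' (bv_inj h1)
  have hy1 : ∀ i : Fin M, ∀ w, G1.Adj (yv i) w ↔ G.Adj (yv i) w := by
    intro i w
    rw [hadj1]
    constructor
    · rintro ((h1 | ⟨h1, -⟩ | ⟨h1, -⟩) | ⟨h1, -⟩ | ⟨h1, -⟩)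
      · exact h1
      · exact absurd h1.symm (bv_ne_yv _ _)
      · exact absurd h1.symm (xv_ne_yv _ _)
      · exact absurd h1.symm (xv_ne_yv _ _)
      · exact absurd h1.symm (bv_ne_yv _ _)
    · exact fun h1 => Or.inl (Or.inl h1)
  have hz1 : ∀ i : Fin M, ∀ w, G1.Adj (zv i) w ↔ G.Adj (zv i) w := by
    intro i w
    rw [hadj1]
    constructor
    · rintro ((h1 | ⟨h1, -⟩ | ⟨h1, -⟩) | ⟨h1, -⟩ | ⟨h1, -⟩)
      · exact h1
      · exact absurd h1.symm (bv_ne_zv _ _)
      · exact absurd h1.symm (xv_ne_zv _ _)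
      · exact absurd h1.symm (xv_ne_zv _ _)
      · exact absurd h1.symm (bv_ne_zv _ _)
    · exact fun h1 => Or.inl (Or.inl h1)
  have hx1 : ∀ i : Fin M, ∀ w, G1.Adj (xv i) w ↔
      G.Adj (xv i) w ∨ (i = T ∧ (w = bv p.1 ∨ w = bv p.2)) := by
    intro i w
    rw [hadj1]
    constructor
    · rintro ((h1 | ⟨h1, -⟩ | ⟨h1, h2⟩) | ⟨h1, h2⟩ | ⟨h1, -⟩)
      · exact Or.inl h1
      · exact absurd h1.symm (bv_ne_xv _ _)
      · exact Or.inr ⟨xv_inj h1, Or.inl h2⟩
      · exact Or.inr ⟨xv_inj h1, Or.inr h2⟩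
      · exact absurd h1.symm (bv_ne_xv _ _)
    · rintro (h1 | ⟨rfl, h1 | h1⟩)
      · exact Or.inl (Or.inl h1)
      · exact Or.inl (Or.inr (Or.inr ⟨rfl, h1⟩))
      · exact Or.inr (Or.inl ⟨rfl, h1⟩)
  obtain ⟨b1, b2, b3⟩ := attach2 G1 g Δ (bv p'.1) (yv T) (zv T) (bv p'.2) (bv_ne_yv _ _)
    (bv_ne_zv _ _) (yv_ne_zv _ _) (bv_ne_yv _ _).symm (bv_ne_zv _ _).symm hb12' a1
    (fun z hz => h.isoy T (le_refl _) z ((hy1 T z).mp hz))
    (fun z hz => h.isoz T (le_refl _) z ((hz1 T z).mp hz)) hp'.1 hp'.2.1 hp'.2.2 a2 hΔ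
  have hadj2 : ∀ a b : W N M, (G1 ⊔ edge (bv p'.1) (yv T) ⊔ edge (yv T) (zv T) ⊔
      edge (zv T) (bv p'.2)).Adj a b ↔
      ((G1.Adj a b ∨ (a = bv p'.1 ∧ b = yv T) ∨ (a = yv T ∧ b = bv p'.1)) ∨
      (a = yv T ∧ b = zv T) ∨ (a = zv T ∧ b = yv T)) ∨
      (a = zv T ∧ b = bv p'.2) ∨ (a = bv p'.2 ∧ b = zv T) := by
    intro a b
    rw [adj_sup_edge (bv_ne_zv _ _).symm, adj_sup_edge (yv_ne_zv _ _),
      adj_sup_edge (bv_ne_yv _ _)]
  set G2 := G1 ⊔ edge (bv p'.1) (yv T) ⊔ edge (yv T) (zv T) ⊔ edge (zv T) (bv p'.2) with hG2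
  have hx2 : ∀ i : Fin M, ∀ w, G2.Adj (xv i) w ↔
      G.Adj (xv i) w ∨ (i = T ∧ (w = bv p.1 ∨ w = bv p.2)) := by
    intro i w
    rw [hadj2, ← hx1]
    constructor
    · rintro (((h1 | ⟨h1, -⟩ | ⟨h1, -⟩) | ⟨h1, -⟩ | ⟨h1, -⟩) | ⟨h1, -⟩ | ⟨h1, -⟩)
      · exact h1
      · exact absurd h1.symm (bv_ne_xv _ _)
      · exact absurd h1 (xv_ne_yv _ _)
      · exact absurd h1 (xv_ne_yv _ _)
      · exact absurd h1 (xv_ne_zv _ _)
      · exact absurd h1 (xv_ne_zv _ _)
      · exact absurd h1.symm (bv_ne_xv _ _)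
    · exact fun h1 => Or.inl (Or.inl (Or.inl h1))
  have hy2 : ∀ i : Fin M, ∀ w, G2.Adj (yv i) w ↔
      G.Adj (yv i) w ∨ (i = T ∧ (w = bv p'.1 ∨ w = zv T)) := by
    intro i w
    rw [hadj2, hy1]
    constructor
    · rintro (((h1 | ⟨h1, -⟩ | ⟨h1, h2⟩) | ⟨h1, h2⟩ | ⟨h1, -⟩) | ⟨h1, -⟩ | ⟨h1, -⟩)
      · exact Or.inl h1
      · exact absurd h1.symm (bv_ne_yv _ _)
      · exact Or.inr ⟨yv_inj h1, Or.inl h2⟩
      · exact Or.inr ⟨yv_inj h1, Or.inr h2⟩
      · exact absurd h1 (yv_ne_zv _ _)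
      · exact absurd h1 (yv_ne_zv _ _)
      · exact absurd h1.symm (bv_ne_yv _ _)
    · rintro (h1 | ⟨rfl, h1 | h1⟩)
      · exact Or.inl (Or.inl (Or.inl h1))
      · exact Or.inl (Or.inl (Or.inr (Or.inr ⟨rfl, h1⟩)))
      · exact Or.inl (Or.inr (Or.inl ⟨rfl, h1⟩))
  have hz2 : ∀ i : Fin M, ∀ w, G2.Adj (zv i) w ↔
      G.Adj (zv i) w ∨ (i = T ∧ (w = yv T ∨ w = bv p'.2)) := by
    intro i w
    rw [hadj2, hz1]
    constructor
    · rintro (((h1 | ⟨h1, -⟩ | ⟨h1, -⟩) | ⟨h1, -⟩ | ⟨h1, h2⟩) | ⟨h1, h2⟩ | ⟨h1, -⟩)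
      · exact Or.inl h1
      · exact absurd h1.symm (bv_ne_zv _ _)
      · exact absurd h1.symm (yv_ne_zv _ _)
      · exact absurd h1.symm (yv_ne_zv _ _)
      · exact Or.inr ⟨zv_inj h1, Or.inl h2⟩
      · exact Or.inr ⟨zv_inj h1, Or.inr h2⟩
      · exact absurd h1.symm (bv_ne_zv _ _)
    · rintro (h1 | ⟨rfl, h1 | h1⟩)
      · exact Or.inl (Or.inl (Or.inl h1))
      · exact Or.inl (Or.inr (Or.inr ⟨rfl, h1⟩))
      · exact Or.inr (Or.inl ⟨rfl, h1⟩)
  have hTv : T.val = t := rfl
  refine ⟨G2, ⟨b1, ?_, ?_, ?_, ?_, ?_, ?_, ?_, b2, ?_, ?_⟩⟩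
  · intro i hi w
    rw [hx2]
    rintro (h1 | ⟨rfl, -⟩)
    · exact h.isox i (by omega) w h1
    · omega
  · intro i hi w
    rw [hy2]
    rintro (h1 | ⟨rfl, -⟩)
    · exact h.isoy i (by omega) w h1
    · omega
  · intro i hi w
    rw [hz2]
    rintro (h1 | ⟨rfl, -⟩)
    · exact h.isoz i (by omega) w h1
    · omega
  · intro i hi
    by_cases hit : i = t
    · subst hit
      rw [Function.update_self]
      exact hp12
    · rw [Function.update_of_ne hit]
      exact h.ne1 i (by omega)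
  · intro i hi w
    rw [hx2]
    by_cases hit : i.val = t
    · have hiT : i = T := Fin.ext hit
      rw [hit, Function.update_self]
      constructor
      · rintro (h1 | ⟨-, h1⟩)
        · exact absurd h1 (h.isox i (by omega) w)
        · exact h1
      · exact fun h1 => Or.inr ⟨hiT, h1⟩
    · have hiT : i ≠ T := fun h1 => hit (by rw [h1])
      rw [Function.update_of_ne hit, ← h.hx i (by omega)]
      constructor
      · rintro (h1 | ⟨h1, -⟩)
        · exact h1
        · exact absurd h1 hiT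
      · exact Or.inl
  · intro i hi w
    rw [hy2]
    by_cases hit : i.val = t
    · have hiT : i = T := Fin.ext hit
      rw [hit, Function.update_self]
      constructor
      · rintro (h1 | ⟨-, h1⟩)
        · exact absurd h1 (h.isoy i (by omega) w)
        · rw [hiT]
          exact h1
      · intro h1
        rw [hiT] at h1 ⊢
        exact Or.inr ⟨rfl, h1⟩
    · have hiT : i ≠ T := fun h1 => hit (by rw [h1])
      rw [Function.update_of_ne hit, ← h.hy i (by omega)]
      constructor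
      · rintro (h1 | ⟨h1, -⟩)
        · exact h1
        · exact absurd h1 hiT
      · exact Or.inl
  · intro i hi w
    rw [hz2]
    by_cases hit : i.val = t
    · have hiT : i = T := Fin.ext hit
      rw [hit, Function.update_self]
      constructor
      · rintro (h1 | ⟨-, h1⟩)
        · exact absurd h1 (h.isoz i (by omega) w)
        · rw [hiT]
          exact h1
      · intro h1
        rw [hiT] at h1 ⊢
        exact Or.inr ⟨rfl, h1⟩
    · have hiT : i ≠ T := fun h1 => hit (by rw [h1])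
      rw [Function.update_of_ne hit, ← h.hz i (by omega)]
      constructor
      · rintro (h1 | ⟨h1, -⟩)
        · exact h1
        · exact absurd h1 hiT
      · exact Or.inl
  · have := h.dsum
    omega
  · intro b
    refine (h.dmin b).trans ?_
    exact Set.ncard_le_ncard (fun _ hz => (hadj2 _ _).mpr (Or.inl (Or.inl (Or.inl
      ((hadj1 _ _).mpr (Or.inl (Or.inl hz))))))) (Set.toFinite _)

end main


section potential
variable {N M : ℕ}

open Classical in
/-- The number of obligations met by round `t` outside the branch vertices. -/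
noncomputable def obl (t : ℕ) (e1 e2 : ℕ → Fin N × Fin N) (A : Finset (Fin N)) : ℝ :=
  ∑ i ∈ Finset.range t, ((if (e1 i).1 ∉ A ∧ (e1 i).2 ∉ A then (1 : ℝ) else 0) +
    (if ¬ ((e2 i).1 ∈ A ∧ (e2 i).2 ∈ A) then (1 : ℝ) else 0))

theorem obl_succ (t : ℕ) (e1 e2 : ℕ → Fin N × Fin N) (A : Finset (Fin N)) (p p' : Fin N × Fin N) :
    obl (t + 1) (Function.update e1 t p) (Function.update e2 t p') A = obl t e1 e2 A +
      ((if p.1 ∉ A ∧ p.2 ∉ A then (1 : ℝ) else 0) +
      (if ¬ (p'.1 ∈ A ∧ p'.2 ∈ A) then (1 : ℝ) else 0)) := by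
  classical
  unfold obl
  rw [Finset.sum_range_succ, Function.update_self, Function.update_self]
  congr 1
  apply Finset.sum_congr rfl
  intro i hi
  rw [Finset.mem_range] at hi
  rw [Function.update_of_ne (by omega), Function.update_of_ne (by omega)]

open Classical in
theorem card_pairs1 (A : Finset (Fin N)) :
    (((Finset.univ : Finset (Fin N × Fin N)).filter fun p => p.1 ∉ A ∧ p.2 ∉ A).card : ℝ) =
      ((N : ℝ) - A.card) ^ 2 := by
  have : ((Finset.univ : Finset (Fin N × Fin N)).filter fun p => p.1 ∉ A ∧ p.2 ∉ A) =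
      Aᶜ ×ˢ Aᶜ := by
    ext p
    simp [Finset.mem_product]
  rw [this, Finset.card_product, Finset.card_compl, Fintype.card_fin]
  have h : A.card ≤ N := by
    have := Finset.card_le_univ A
    rwa [Fintype.card_fin] at this
  push_cast [Nat.cast_sub h]
  ring

open Classical in
theorem card_pairs2 (A : Finset (Fin N)) :
    (((Finset.univ : Finset (Fin N × Fin N)).filter fun p => ¬ (p.1 ∈ A ∧ p.2 ∈ A)).card : ℝ) =
      (N : ℝ) ^ 2 - A.card ^ 2 := by
  have h := Finset.card_filter_add_card_filter_not (s := (Finset.univ : Finset (Fin N × Fin N)))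
    (fun p => p.1 ∈ A ∧ p.2 ∈ A)
  have h2 : ((Finset.univ : Finset (Fin N × Fin N)).filter fun p => p.1 ∈ A ∧ p.2 ∈ A) =
      A ×ˢ A := by
    ext p
    simp [Finset.mem_product]
  rw [h2, Finset.card_product, Finset.card_univ, Fintype.card_prod, Fintype.card_fin] at h
  have h3 : (A.card : ℝ) * A.card +
      ((Finset.univ : Finset (Fin N × Fin N)).filter fun p => ¬ (p.1 ∈ A ∧ p.2 ∈ A)).card =
      (N : ℝ) * N := by exact_mod_cast h
  rw [sq, sq]
  linarith

/-- The potential of `A` after round `t`. -/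
noncomputable def pot (μ q : ℝ) (t : ℕ) (e1 e2 : ℕ → Fin N × Fin N) (A : Finset (Fin N)) : ℝ :=
  Real.exp (-μ * obl t e1 e2 A + q * (t * (2 - 2 * (A.card / N))))

theorem exists_state (hN : 3 ≤ N) (Δ g : ℕ) (hg : 2 ≤ g) (hgN : g ≤ N) (hΔ : 4 ≤ Δ) (δ : ℝ)
    (hδ1 : δ < 1)
    (hδ : 2 * (N : ℝ) * (2 * N + 10 * M) + N * (Δ + 1) ^ g * Δ ≤ δ * N ^ 2 * Δ)
    (μ q : ℝ) (hq : q = 1 - Real.exp (-μ)) (t : ℕ) (ht : t ≤ M) :
    ∃ (e1 e2 : ℕ → Fin N × Fin N) (G : SimpleGraph (W N M)), Inv N M Δ g t e1 e2 G ∧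
      (1 - δ) ^ (2 * t) * ∑ A : Finset (Fin N), pot μ q t e1 e2 A ≤ 2 ^ N := by
  classical
  have hN0 : 0 < N := by omega
  have hNr : (0 : ℝ) < N := by exact_mod_cast hN0
  induction t with
  | zero =>
    let b : ℕ → W N M := fun i => if h : i < N then bv ⟨i, h⟩ else bv ⟨0, hN0⟩
    have hbe : ∀ i (h : i < N), b i = bv ⟨i, h⟩ := fun i h => dif_pos h
    have hb : ∀ i j, i < N → j < N → b i = b j → i = j := by
      intro i j hi hj h
      rw [hbe i hi, hbe j hj] at h
      have := bv_inj h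
      simpa using this
    obtain ⟨G, h1, h2, h3, h4, h5⟩ := exists_cycle b N g hN hgN hb
    have h2' : ∀ x y : W N M, G.Adj x y → ∃ a : Fin N, x = bv a := by
      intro x y h
      obtain ⟨i, hi, rfl⟩ := h2 x y h
      exact ⟨⟨i, hi⟩, hbe i hi⟩
    refine ⟨fun _ => (⟨0, hN0⟩, ⟨0, hN0⟩), fun _ => (⟨0, hN0⟩, ⟨0, hN0⟩), G,
      ⟨h1, ?_, ?_, ?_, ?_, ?_, ?_, ?_, ?_, ?_, ?_⟩, ?_⟩
    · intro i _ w h
      obtain ⟨a, ha⟩ := h2' _ _ h
      exact bv_ne_xv _ _ ha.symm
    · intro i _ w h
      obtain ⟨a, ha⟩ := h2' _ _ h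
      exact bv_ne_yv _ _ ha.symm
    · intro i _ w h
      obtain ⟨a, ha⟩ := h2' _ _ h
      exact bv_ne_zv _ _ ha.symm
    · intro i hi
      omega
    · intro i hi
      omega
    · intro i hi
      omega
    · intro i hi
      omega
    · intro w
      exact (h4 w).trans hΔ
    · omega
    · intro a
      have := h3 a.val a.isLt
      rwa [hbe a.val a.isLt] at this
    · have : ∀ A : Finset (Fin N), pot μ q 0 (fun _ => ((⟨0, hN0⟩ : Fin N), (⟨0, hN0⟩ : Fin N)))
          (fun _ => ((⟨0, hN0⟩ : Fin N), (⟨0, hN0⟩ : Fin N))) A = 1 := by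
        intro A
        unfold pot obl
        simp
      rw [Finset.sum_congr rfl fun A _ => this A]
      simp
  | succ t ih =>
    obtain ⟨e1, e2, G, hG, hpot⟩ := ih (by omega)
    have htM : t < M := ht
    have htMr : (t : ℝ) ≤ M := by exact_mod_cast htM.le
    have htMr' : (t : ℝ) + 1 ≤ M := by exact_mod_cast htM
    set c : ℝ := ∑ A : Finset (Fin N), pot μ q t e1 e2 A with hc
    have hpos : ∀ A : Finset (Fin N), 0 ≤ pot μ q t e1 e2 A := fun A => Real.exp_nonneg _
    have hc0 : 0 ≤ c := Finset.sum_nonneg fun A _ => hpos A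
    -- first choice
    let F1 : Finset (Fin N) → Fin N × Fin N → ℝ := fun A p =>
      Real.exp (-μ * (if p.1 ∉ A ∧ p.2 ∉ A then (1 : ℝ) else 0) +
        q * (((Finset.univ.filter fun p : Fin N × Fin N => p.1 ∉ A ∧ p.2 ∉ A).card : ℝ) / N ^ 2))
    let F2 : Finset (Fin N) → Fin N × Fin N → ℝ := fun A p =>
      Real.exp (-μ * (if ¬ (p.1 ∈ A ∧ p.2 ∈ A) then (1 : ℝ) else 0) +
        q * (((Finset.univ.filter fun p : Fin N × Fin N => ¬ (p.1 ∈ A ∧ p.2 ∈ A)).card : ℝ) /
          N ^ 2))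
    have hF1 : ∀ A, ∑ p, F1 A p ≤ (N : ℝ) ^ 2 := by
      intro A
      have h := average hN0 (fun p : Fin N × Fin N => p.1 ∉ A ∧ p.2 ∉ A) μ q hq
      convert h
    have hF2 : ∀ A, ∑ p, F2 A p ≤ (N : ℝ) ^ 2 := by
      intro A
      have h := average hN0 (fun p : Fin N × Fin N => ¬ (p.1 ∈ A ∧ p.2 ∈ A)) μ q hq
      convert h
    have hs1 : ∑ p, ∑ A : Finset (Fin N), pot μ q t e1 e2 A * F1 A p ≤ (N : ℝ) ^ 2 * c := by
      rw [Finset.sum_comm, hc, Finset.mul_sum]
      apply Finset.sum_le_sum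
      intro A _
      rw [← Finset.mul_sum, mul_comm]
      exact mul_le_mul_of_nonneg_right (hF1 A) (hpos A)
    have hΔr : (0 : ℝ) < Δ := by
      have : 0 < Δ := by omega
      exact_mod_cast this
    obtain ⟨p, hp, hpc⟩ := select G hN0 (bv : Fin N → W N M) bv_inj Δ g (2 * N + 10 * t)
      hG.dmax hG.dsum δ hδ1 (by omega) (by
        refine le_trans ?_ hδ
        push_cast
        have h1 : 2 * (N : ℝ) * (2 * N + 10 * t) ≤ 2 * (N : ℝ) * (2 * N + 10 * M) := by
          apply mul_le_mul_of_nonneg_left _ (by positivity)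
          linarith
        linarith)
      (fun p => ∑ A : Finset (Fin N), pot μ q t e1 e2 A * F1 A p)
      (fun p => Finset.sum_nonneg fun A _ => mul_nonneg (hpos A) (Real.exp_nonneg _)) c hc0 hs1
    obtain ⟨k1, k2, k3⟩ := hG.next hg (by omega) htM p hp
    set G1 := G ⊔ edge (bv p.1) (xv ⟨t, htM⟩) ⊔ edge (xv ⟨t, htM⟩) (bv p.2) with hG1
    set c' : ℝ := ∑ A : Finset (Fin N), pot μ q t e1 e2 A * F1 A p with hc'
    have hpos' : ∀ A : Finset (Fin N), 0 ≤ pot μ q t e1 e2 A * F1 A p := fun A =>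
      mul_nonneg (hpos A) (Real.exp_nonneg _)
    have hc0' : 0 ≤ c' := Finset.sum_nonneg fun A _ => hpos' A
    have hs2 : ∑ p', ∑ A : Finset (Fin N), pot μ q t e1 e2 A * F1 A p * F2 A p' ≤
        (N : ℝ) ^ 2 * c' := by
      rw [Finset.sum_comm, hc', Finset.mul_sum]
      apply Finset.sum_le_sum
      intro A _
      rw [← Finset.mul_sum, mul_comm]
      exact mul_le_mul_of_nonneg_right (hF2 A) (hpos' A)
    obtain ⟨p', hp', hpc'⟩ := select G1 hN0 (bv : Fin N → W N M) bv_inj Δ g (2 * N + 10 * t + 4)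
      k1 k2 δ hδ1 (by omega) (by
        refine le_trans ?_ hδ
        push_cast
        have h1 : 2 * (N : ℝ) * (2 * N + 10 * t + 4) ≤ 2 * (N : ℝ) * (2 * N + 10 * M) := by
          apply mul_le_mul_of_nonneg_left _ (by positivity)
          linarith
        linarith)
      (fun p' => ∑ A : Finset (Fin N), pot μ q t e1 e2 A * F1 A p * F2 A p')
      (fun p' => Finset.sum_nonneg fun A _ => mul_nonneg (hpos' A) (Real.exp_nonneg _)) c' hc0' hs2
    obtain ⟨G', hG'⟩ := k3 p' hp'
    refine ⟨Function.update e1 t p, Function.update e2 t p', G', hG', ?_⟩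
    have hsum : ∑ A : Finset (Fin N),
        pot μ q (t + 1) (Function.update e1 t p) (Function.update e2 t p') A =
        ∑ A : Finset (Fin N), pot μ q t e1 e2 A * F1 A p * F2 A p' := by
      apply Finset.sum_congr rfl
      intro A _
      unfold pot
      rw [← Real.exp_add, ← Real.exp_add, obl_succ, card_pairs1, card_pairs2]
      congr 1
      push_cast
      field_simp
      ring
    rw [hsum]
    have hδ' : 0 < 1 - δ := by linarith
    calc (1 - δ) ^ (2 * (t + 1)) *
          ∑ A : Finset (Fin N), pot μ q t e1 e2 A * F1 A p * F2 A p'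
        = (1 - δ) ^ (2 * t) * ((1 - δ) * ((1 - δ) *
          ∑ A : Finset (Fin N), pot μ q t e1 e2 A * F1 A p * F2 A p')) := by ring
      _ ≤ (1 - δ) ^ (2 * t) * ((1 - δ) * c') := by gcongr
      _ ≤ (1 - δ) ^ (2 * t) * c := by gcongr
      _ ≤ 2 ^ N := hpot

end potential


section final

/-- `D` is a dominating set of `G`: every vertex is in `D` or has a neighbour in `D`. -/
def IsDominating {V : Type} (G : SimpleGraph V) (D : Set V) : Prop :=
  ∀ v, v ∈ D ∨ ∃ w ∈ D, G.Adj v w

/-- The minimum degree of `G` is exactly 2. -/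
def MinDegreeTwo {V : Type} (G : SimpleGraph V) : Prop :=
  (∀ v, 2 ≤ (G.neighborSet v).ncard) ∧ ∃ v, (G.neighborSet v).ncard = 2

/-- `G` has a dominating `(a:b)`-colouring: each vertex gets `b` of the `a` colours and every
colour class is a dominating set. -/
def HasDomColouring {V : Type} (G : SimpleGraph V) (a b : ℕ) : Prop :=
  ∃ φ : V → Finset (Fin a), (∀ v, (φ v).card = b) ∧ ∀ i : Fin a, IsDominating G {v | i ∈ φ v}

/-- The fractional domatic number. -/
noncomputable def fdom {V : Type} (G : SimpleGraph V) : ℝ :=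
  sSup {r : ℝ | ∃ a b : ℕ, 1 ≤ b ∧ b ≤ a ∧ HasDomColouring G a b ∧ r = (a : ℝ) / b}

/-- The infimum of `fdom` over the finite graphs of minimum degree 2 and girth at least `g`. -/
noncomputable def classInf (g : ℕ) : ℝ :=
  sInf {r : ℝ | ∃ (V : Type) (_ : Fintype V) (G : SimpleGraph V),
    MinDegreeTwo G ∧ (g : ℕ∞) ≤ G.egirth ∧ r = fdom G}

theorem exp_bound1 (μ : ℝ) (hμ0 : 0 ≤ μ) : μ - μ ^ 2 ≤ 1 - Real.exp (-μ) := by
  have h4 : Real.exp (-μ) * Real.exp μ = 1 := by
    rw [← Real.exp_add, neg_add_cancel, Real.exp_zero]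
  have h5 : 1 + μ ≤ Real.exp μ := by
    have := Real.add_one_le_exp μ
    linarith
  have h6 : Real.exp (-μ) * (1 + μ) ≤ Real.exp (-μ) * Real.exp μ :=
    mul_le_mul_of_nonneg_left h5 (Real.exp_nonneg _)
  rw [h4] at h6
  have h7 : (1 - μ + μ ^ 2) * (1 + μ) = 1 + μ ^ 3 := by ring
  have h8 : Real.exp (-μ) * (1 + μ) ≤ (1 - μ + μ ^ 2) * (1 + μ) := by
    rw [h7]
    have : 0 ≤ μ ^ 3 := by positivity
    linarith
  have h9 := le_of_mul_le_mul_right h8 (by linarith)
  linarith

theorem exp_bound2 (δ : ℝ) (hδ0 : 0 ≤ δ) (hδ1 : δ ≤ 1 / 2) : Real.exp (-(2 * δ)) ≤ 1 - δ := by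
  have h4 : Real.exp (-(2 * δ)) * Real.exp (2 * δ) = 1 := by
    rw [← Real.exp_add, neg_add_cancel, Real.exp_zero]
  have h5 : 1 + 2 * δ ≤ Real.exp (2 * δ) := by
    have := Real.add_one_le_exp (2 * δ)
    linarith
  have h6 : Real.exp (-(2 * δ)) * (1 + 2 * δ) ≤ Real.exp (-(2 * δ)) * Real.exp (2 * δ) :=
    mul_le_mul_of_nonneg_left h5 (Real.exp_nonneg _)
  rw [h4] at h6
  have h7 : 1 ≤ (1 - δ) * (1 + 2 * δ) := by nlinarith
  exact le_of_mul_le_mul_right (h6.trans h7) (by linarith)

theorem final_ineq (η N M C a S q μ δ : ℝ) (hη : 0 < η) (hN : 0 < N) (hM : 0 < M)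
    (hMr : M = C * N) (hC : 16 / η ^ 2 ≤ C) (hμ : μ = η / 4) (hδ : δ = η ^ 2 / 64)
    (hq : μ - μ ^ 2 ≤ q) (ha0 : 0 ≤ a) (ha1 : a ≤ 1)
    (h3 : -(4 * δ * M) + (-μ * S + q * (M * (2 - 2 * a))) ≤ N) : 2 - 2 * a - η ≤ S / M := by
  have hμ0 : 0 < μ := by rw [hμ]; positivity
  have h4 : (μ - μ ^ 2) * (M * (2 - 2 * a)) ≤ q * (M * (2 - 2 * a)) :=
    mul_le_mul_of_nonneg_right hq (mul_nonneg hM.le (by linarith))
  have h5 : μ ^ 2 * (M * (2 - 2 * a)) ≤ μ ^ 2 * (M * 2) := by
    apply mul_le_mul_of_nonneg_left _ (by positivity)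
    apply mul_le_mul_of_nonneg_left _ hM.le
    linarith
  have h6 : μ * (M * (2 - 2 * a)) ≤ μ * S + 2 * μ ^ 2 * M + 4 * δ * M + N := by
    have e1 : (μ - μ ^ 2) * (M * (2 - 2 * a)) =
      μ * (M * (2 - 2 * a)) - μ ^ 2 * (M * (2 - 2 * a)) := by ring
    have e2 : μ ^ 2 * (M * 2) = 2 * μ ^ 2 * M := by ring
    rw [e1] at h4
    rw [e2] at h5
    linarith
  have h8 : 16 ≤ C * η ^ 2 := by
    rwa [div_le_iff₀ (by positivity)] at hC
  have h7 : N ≤ μ * (η / 4) * M := by
    have e1 : μ * (η / 4) * M = (C * η ^ 2) * N / 16 := by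
      rw [hMr, hμ]
      ring
    rw [e1]
    have : 16 * N ≤ (C * η ^ 2) * N := mul_le_mul_of_nonneg_right h8 hN.le
    linarith
  have h9 : 4 * δ * M = μ * (η / 4) * M := by
    rw [hδ, hμ]
    ring
  have h10 : 2 * μ ^ 2 * M = μ * (η / 2) * M := by
    rw [hμ]
    ring
  have h11 : μ * (M * (2 - 2 * a)) ≤ μ * (S + η * M) := by
    have e1 : μ * (S + η * M) = μ * S + μ * (η / 2) * M + μ * (η / 4) * M + μ * (η / 4) * M := by
      ring
    rw [e1]
    linarith
  have h12 : M * (2 - 2 * a) ≤ S + η * M := le_of_mul_le_mul_left h11 hμ0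
  rw [le_div_iff₀ hM]
  linarith

theorem exists_graph (g : ℕ) (η : ℝ) (hη : 0 < η) (hη1 : η ≤ 1) :
    ∃ (V : Type) (_ : Fintype V) (G : SimpleGraph V) (w : V → ℝ), NoShort G g ∧
      MinDegreeTwo G ∧ (∀ v, 0 ≤ w v) ∧ ∑ v, w v = 5 ∧
      ∀ D : Finset V, IsDominating G (D : Set V) → 2 - η ≤ ∑ v ∈ D, w v := by
  classical
  set g' := max g 2 with hg'
  have hg2 : 2 ≤ g' := le_max_right _ _
  have hgg' : g ≤ g' := le_max_left _ _
  obtain ⟨C0, hC0⟩ := exists_nat_ge (16 / η ^ 2)
  set C := C0 + 1 with hC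
  have hCr : 16 / η ^ 2 ≤ (C : ℝ) := by rw [hC]; push_cast; linarith
  have hC1 : (1 : ℝ) ≤ C := by rw [hC]; push_cast; linarith [Nat.cast_nonneg (α := ℝ) C0]
  set δ := η ^ 2 / 64 with hδ
  have hη2 : η ^ 2 ≤ 1 := pow_le_one₀ hη.le hη1
  have hδ0 : 0 < δ := by positivity
  have hδ1 : δ ≤ 1 / 64 := by rw [hδ]; linarith
  obtain ⟨Δ0, hΔ0⟩ := exists_nat_ge (2 * (2 + 10 * (C : ℝ)) / (δ / 2))
  set Δ := Δ0 + 4 with hΔ
  have hΔr : 2 * (2 + 10 * (C : ℝ)) ≤ (δ / 2) * Δ := by
    rw [div_le_iff₀ (by positivity)] at hΔ0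
    rw [hΔ]
    push_cast
    nlinarith
  obtain ⟨N0, hN0⟩ := exists_nat_ge (((Δ : ℝ) + 1) ^ g' / (δ / 2))
  set N := N0 + g' + 3 with hN
  have hNr : ((Δ : ℝ) + 1) ^ g' ≤ (δ / 2) * N := by
    rw [div_le_iff₀ (by positivity)] at hN0
    rw [hN]
    push_cast
    nlinarith [Nat.cast_nonneg (α := ℝ) g']
  have hN3 : 3 ≤ N := by omega
  have hNg : g' ≤ N := by omega
  have hN0' : 0 < N := by omega
  have hNp : (0 : ℝ) < N := by exact_mod_cast hN0'
  set M := C * N with hM
  have hM0 : 0 < M := by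
    rw [hM]
    exact Nat.mul_pos (by omega) hN0'
  have hMp : (0 : ℝ) < M := by exact_mod_cast hM0
  have hMr : (M : ℝ) = C * N := by rw [hM]; push_cast; ring
  set μ := η / 4 with hμ
  have hμ0 : 0 < μ := by positivity
  have hΔp : (0 : ℝ) ≤ Δ := Nat.cast_nonneg _
  obtain ⟨e1, e2, G, hG, hpot⟩ := exists_state (N := N) (M := M) hN3 Δ g' hg2 hNg (by omega) δ
    (by linarith) (by
      rw [hMr]
      have h1 : 2 * (N : ℝ) * (2 * N + 10 * (C * N)) = N ^ 2 * (2 * (2 + 10 * C)) := by ring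
      have h2 : (N : ℝ) ^ 2 * (2 * (2 + 10 * C)) ≤ N ^ 2 * ((δ / 2) * Δ) :=
        mul_le_mul_of_nonneg_left hΔr (by positivity)
      have h3 : (N : ℝ) * (Δ + 1) ^ g' * Δ ≤ N * ((δ / 2) * N) * Δ := by gcongr
      have h4 : (N : ℝ) ^ 2 * ((δ / 2) * Δ) + N * ((δ / 2) * N) * Δ = δ * N ^ 2 * Δ := by ring
      linarith) μ (1 - Real.exp (-μ)) rfl M (le_refl _)
  -- the weight function
  let w : W N M → ℝ := Sum.elim (fun _ => 2 / N) (fun _ => 1 / M)
  have hwb : ∀ b, w (bv b) = 2 / N := fun b => rfl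
  have hwx : ∀ i, w (xv i) = 1 / M := fun i => rfl
  have hwy : ∀ i, w (yv i) = 1 / M := fun i => rfl
  have hwz : ∀ i, w (zv i) = 1 / M := fun i => rfl
  have hsumW : ∀ f : W N M → ℝ, ∑ v, f v = ∑ b, f (bv b) + ∑ i, (f (xv i) + f (yv i) + f (zv i)) := by
    intro f
    rw [Fintype.sum_sum_type, Fintype.sum_sum_type, Fintype.sum_sum_type,
      Finset.sum_add_distrib, Finset.sum_add_distrib]
    unfold bv xv yv zv
    ring
  refine ⟨W N M, inferInstance, G, w, ?_, ?_, ?_, ?_, ?_⟩
  · intro a c hc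
    exact hgg'.trans (hG.ns a c hc)
  · have hx2 : ∀ i : Fin M, (G.neighborSet (xv i)).ncard = 2 := by
      intro i
      have : G.neighborSet (xv i) = {bv (e1 i).1, bv (e1 i).2} := by
        ext w
        rw [mem_neighborSet, hG.hx i i.isLt]
        simp
      rw [this]
      exact Set.ncard_pair fun h => hG.ne1 i i.isLt (bv_inj h)
    have hy2 : ∀ i : Fin M, (G.neighborSet (yv i)).ncard = 2 := by
      intro i
      have : G.neighborSet (yv i) = {bv (e2 i).1, zv i} := by
        ext w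
        rw [mem_neighborSet, hG.hy i i.isLt]
        simp
      rw [this]
      exact Set.ncard_pair (bv_ne_zv _ _)
    have hz2 : ∀ i : Fin M, (G.neighborSet (zv i)).ncard = 2 := by
      intro i
      have : G.neighborSet (zv i) = {yv i, bv (e2 i).2} := by
        ext w
        rw [mem_neighborSet, hG.hz i i.isLt]
        simp
      rw [this]
      exact Set.ncard_pair (bv_ne_yv _ _).symm
    refine ⟨?_, xv ⟨0, hM0⟩, hx2 _⟩
    rintro (b | i | i | i)
    · exact hG.dmin b
    · exact (hx2 i).ge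
    · exact (hy2 i).ge
    · exact (hz2 i).ge
  · rintro (b | i)
    · exact (by positivity : (0 : ℝ) ≤ 2 / N)
    · exact (by positivity : (0 : ℝ) ≤ 1 / M)
  · rw [hsumW w]
    simp only [hwb, hwx, hwy, hwz, Finset.sum_const, Finset.card_univ, Fintype.card_fin,
      nsmul_eq_mul]
    field_simp
    norm_num
  · intro D hD
    set A : Finset (Fin N) := Finset.univ.filter fun b => bv b ∈ D with hA
    have hmA : ∀ b, b ∈ A ↔ bv b ∈ D := fun b => by simp [hA]
    -- lower bound for the weight in terms of the obligations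
    have hw1 : 2 * ((A.card : ℝ) / N) + obl M e1 e2 A / M ≤ ∑ v ∈ D, w v := by
      have h1 : ∑ v ∈ D, w v = ∑ v, if v ∈ D then w v else 0 := by
        rw [← Finset.sum_filter]
        congr 1
        ext v
        simp
      rw [h1, hsumW]
      have h2 : ∑ b, (if (bv b : W N M) ∈ D then w (bv b) else 0) = 2 * ((A.card : ℝ) / N) := by
        rw [← Finset.sum_filter, Finset.sum_congr rfl fun b _ => hwb b, Finset.sum_const,
          nsmul_eq_mul]
        ring
      have h3 : obl M e1 e2 A / M ≤ ∑ i : Fin M, ((if (xv i : W N M) ∈ D then w (xv i) else 0) +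
          (if (yv i : W N M) ∈ D then w (yv i) else 0) +
          (if (zv i : W N M) ∈ D then w (zv i) else 0)) := by
        unfold obl
        rw [Finset.sum_div, Finset.sum_range]
        apply Finset.sum_le_sum
        intro i _
        rw [hwx, hwy, hwz]
        have k1 : (if (e1 i).1 ∉ A ∧ (e1 i).2 ∉ A then (1 : ℝ) else 0) / M ≤
            if (xv i : W N M) ∈ D then 1 / (M : ℝ) else 0 := by
          by_cases hP : (e1 i).1 ∉ A ∧ (e1 i).2 ∉ A
          · have hxD : (xv i : W N M) ∈ D := by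
              rcases hD (xv i) with h | ⟨u, hu, hadj⟩
              · exact h
              · rw [hG.hx i i.isLt] at hadj
                rcases hadj with rfl | rfl
                · exact absurd ((hmA _).mpr hu) hP.1
                · exact absurd ((hmA _).mpr hu) hP.2
            rw [if_pos hP, if_pos hxD]
          · rw [if_neg hP, zero_div]
            split_ifs
            · positivity
            · exact le_refl _
        have k2 : (if ¬ ((e2 i).1 ∈ A ∧ (e2 i).2 ∈ A) then (1 : ℝ) else 0) / M ≤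
            (if (yv i : W N M) ∈ D then 1 / (M : ℝ) else 0) +
            (if (zv i : W N M) ∈ D then 1 / (M : ℝ) else 0) := by
          have p1 : 0 ≤ (if (yv i : W N M) ∈ D then 1 / (M : ℝ) else 0) := by
            split_ifs
            · positivity
            · exact le_refl _
          have p2 : 0 ≤ (if (zv i : W N M) ∈ D then 1 / (M : ℝ) else 0) := by
            split_ifs
            · positivity
            · exact le_refl _
          by_cases hP : (e2 i).1 ∈ A ∧ (e2 i).2 ∈ A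
          · rw [if_neg (not_not.mpr hP), zero_div]
            exact add_nonneg p1 p2
          · rw [if_pos hP]
            by_cases hy : (yv i : W N M) ∈ D
            · rw [if_pos hy]
              linarith
            · by_cases hz : (zv i : W N M) ∈ D
              · rw [if_pos hz]
                linarith
              · exfalso
                apply hP
                constructor
                · rcases hD (yv i) with h | ⟨u, hu, hadj⟩
                  · exact absurd h hy
                  · rw [hG.hy i i.isLt] at hadj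
                    rcases hadj with rfl | rfl
                    · exact (hmA _).mpr hu
                    · exact absurd hu hz
                · rcases hD (zv i) with h | ⟨u, hu, hadj⟩
                  · exact absurd h hz
                  · rw [hG.hz i i.isLt] at hadj
                    rcases hadj with rfl | rfl
                    · exact absurd hu hy
                    · exact (hmA _).mpr hu
        rw [add_div]
        linarith
      linarith
    -- lower bound for the obligations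
    set a : ℝ := (A.card : ℝ) / N with ha
    set S : ℝ := obl M e1 e2 A with hS
    set q : ℝ := 1 - Real.exp (-μ) with hq
    have ha0 : 0 ≤ a := by positivity
    have ha1 : a ≤ 1 := by
      rw [ha, div_le_one hNp]
      have := Finset.card_le_univ A
      rw [Fintype.card_fin] at this
      exact_mod_cast this
    have hδ' : (0 : ℝ) < 1 - δ := by linarith
    have h1 : (1 - δ) ^ (2 * M) * pot μ q M e1 e2 A ≤ 2 ^ N := by
      refine le_trans ?_ hpot
      apply mul_le_mul_of_nonneg_left _ (by positivity)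
      exact Finset.single_le_sum (f := fun A => pot μ q M e1 e2 A)
        (fun A _ => Real.exp_nonneg _) (Finset.mem_univ A)
    have h2 : Real.exp (-(2 * δ)) ≤ 1 - δ := exp_bound2 δ hδ0.le (by linarith)
    have h3 : Real.exp (-(4 * δ * M) + (-μ * S + q * (M * (2 - 2 * a)))) ≤ Real.exp N := by
      have h4 : Real.exp (-(4 * δ * M)) = Real.exp (-(2 * δ)) ^ (2 * M) := by
        rw [← Real.exp_nat_mul]
        congr 1
        push_cast
        ring
      have h5 : (2 : ℝ) ^ N ≤ Real.exp N := by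
        have h6 : (2 : ℝ) ≤ Real.exp 1 := by
          have := Real.add_one_le_exp (1 : ℝ)
          linarith
        calc (2 : ℝ) ^ N ≤ Real.exp 1 ^ N := by gcongr
          _ = Real.exp N := by
            rw [← Real.exp_nat_mul, mul_one]
      rw [Real.exp_add, h4]
      refine le_trans ?_ h5
      refine le_trans ?_ h1
      exact mul_le_mul_of_nonneg_right (pow_le_pow_left₀ (Real.exp_nonneg _) h2 _)
        (Real.exp_nonneg _)
    rw [Real.exp_le_exp] at h3
    have h12 := final_ineq η N M C a S q μ δ hη hNp hMp hMr hCr hμ hδ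
      (exp_bound1 μ hμ0.le) ha0 ha1 h3
    linarith

theorem fdom_le {V : Type} [Fintype V] (G : SimpleGraph V) (w : V → ℝ) (η : ℝ) (hη1 : η ≤ 1)
    (hw : ∑ v, w v = 5)
    (h : ∀ D : Finset V, IsDominating G (D : Set V) → 2 - η ≤ ∑ v ∈ D, w v)
    (a b : ℕ) (hb : 1 ≤ b) (hc : HasDomColouring G a b) : (a : ℝ) / b ≤ 5 / (2 - η) := by
  classical
  obtain ⟨φ, h1, h2⟩ := hc
  have h3 : (a : ℝ) * (2 - η) ≤ ∑ i : Fin a, ∑ v ∈ Finset.univ.filter (fun v => i ∈ φ v), w v := by
    have : (a : ℝ) * (2 - η) = ∑ _i : Fin a, (2 - η) := by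
      rw [Finset.sum_const, Finset.card_univ, Fintype.card_fin, nsmul_eq_mul]
    rw [this]
    apply Finset.sum_le_sum
    intro i _
    apply h
    have h4 := h2 i
    convert h4
    ext v
    simp
  have h4 : ∑ i : Fin a, ∑ v ∈ Finset.univ.filter (fun v => i ∈ φ v), w v = 5 * b := by
    have : ∀ i : Fin a, ∑ v ∈ Finset.univ.filter (fun v => i ∈ φ v), w v =
        ∑ v, if i ∈ φ v then w v else 0 := fun i => Finset.sum_filter _ _
    rw [Finset.sum_congr rfl fun i _ => this i, Finset.sum_comm]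
    have h5 : ∀ v, ∑ i : Fin a, (if i ∈ φ v then w v else 0) = b * w v := by
      intro v
      rw [← Finset.sum_filter, Finset.sum_const, nsmul_eq_mul]
      congr 2
      rw [← h1 v]
      congr 1
      ext i
      simp
    rw [Finset.sum_congr rfl fun v _ => h5 v, ← Finset.mul_sum, hw]
    ring
  rw [h4] at h3
  have hb' : (0 : ℝ) < b := by exact_mod_cast hb
  rw [div_le_div_iff₀ hb' (by linarith)]
  exact h3

theorem one_mem {V : Type} (G : SimpleGraph V) :
    (1 : ℝ) ∈ {r : ℝ | ∃ a b : ℕ, 1 ≤ b ∧ b ≤ a ∧ HasDomColouring G a b ∧ r = (a : ℝ) / b} := by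
  refine ⟨1, 1, le_refl _, le_refl _, ⟨fun _ => {0}, fun _ => rfl, ?_⟩, by norm_num⟩
  intro i v
  left
  change i ∈ ({0} : Finset (Fin 1))
  rw [Finset.mem_singleton]
  exact Subsingleton.elim _ _

theorem fdom_nonneg {V : Type} (G : SimpleGraph V) : 0 ≤ fdom G := by
  apply Real.sSup_nonneg
  rintro r ⟨a, b, -, -, -, rfl⟩
  positivity

/-- For every `g` and `ε > 0` there is a graph of minimum degree 2, girth at least `g` and
fractional domatic number at most `5/2 + ε`. -/
theorem exists_small (g : ℕ) (ε : ℝ) (hε : 0 < ε) :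
    ∃ (V : Type) (_ : Fintype V) (G : SimpleGraph V),
      MinDegreeTwo G ∧ (g : ℕ∞) ≤ G.egirth ∧ fdom G ≤ 5 / 2 + ε := by
  obtain ⟨η, hη0, hη1, hη2⟩ : ∃ η : ℝ, 0 < η ∧ η ≤ 1 ∧ 5 / (2 - η) ≤ 5 / 2 + ε := by
    refine ⟨min 1 (ε / 5), lt_min one_pos (by positivity), min_le_left _ _, ?_⟩
    have h1 : min 1 (ε / 5) ≤ 1 := min_le_left _ _
    have h2 : min 1 (ε / 5) ≤ ε / 5 := min_le_right _ _
    have h3 : 0 < min 1 (ε / 5) := lt_min one_pos (by positivity)
    rw [div_le_iff₀ (by linarith)]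
    nlinarith
  obtain ⟨V, hV, G, w, h1, h2, h3, h4, h5⟩ := exists_graph g η hη0 hη1
  refine ⟨V, hV, G, h2, ?_, ?_⟩
  · rw [le_egirth]
    intro a c hc
    exact_mod_cast h1 a c hc
  · apply csSup_le ⟨1, one_mem G⟩
    rintro r ⟨a, b, hb, -, hc, rfl⟩
    exact (fdom_le G w η hη1 h4 h5 a b hb hc).trans hη2

theorem classInf_bdd (g : ℕ) : BddBelow {r : ℝ | ∃ (V : Type) (_ : Fintype V)
    (G : SimpleGraph V), MinDegreeTwo G ∧ (g : ℕ∞) ≤ G.egirth ∧ r = fdom G} := by
  refine ⟨0, ?_⟩
  rintro r ⟨V, _, G, -, -, rfl⟩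
  exact fdom_nonneg G

theorem classInf_le (g : ℕ) : classInf g ≤ 5 / 2 := by
  apply le_of_forall_pos_le_add
  intro ε hε
  obtain ⟨V, hV, G, h1, h2, h3⟩ := exists_small g ε hε
  exact (csInf_le (classInf_bdd g) ⟨V, hV, G, h1, h2, rfl⟩).trans h3

theorem classInf_mono : Monotone classInf := by
  intro g g' hgg'
  obtain ⟨V, hV, G, h1, h2, -⟩ := exists_small g' 1 one_pos
  refine csInf_le_csInf (classInf_bdd g) ⟨fdom G, V, hV, G, h1, h2, rfl⟩ ?_
  rintro r ⟨V', hV', G', h1', h2', rfl⟩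
  refine ⟨V', hV', G', h1', le_trans ?_ h2', rfl⟩
  exact_mod_cast hgg'

/-- The limit `L` of the infima exists and is at most `5/2`; each infimum is at most `5/2`. -/
theorem result : (∀ g, classInf g ≤ 5 / 2) ∧
    ∃ L : ℝ, Filter.Tendsto classInf Filter.atTop (nhds L) ∧ L ≤ 5 / 2 := by
  refine ⟨classInf_le, ⨆ g, classInf g, ?_, ciSup_le classInf_le⟩
  exact tendsto_atTop_ciSup classInf_mono ⟨5 / 2, by rintro _ ⟨g, rfl⟩; exact classInf_le g⟩

end final

end Pool.Agent.Results.MP_cc2bbb_co.LimitAtMost
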